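import Mathlib
import Pool.Agent.R821.NoMackey

/-!
# No metrizable precompact group topology on the integers is Mackey

Negative answer to Q1. The dual group `H` of a metrizable precompact locally quasi-convex group topology
`τ` on `ℤ` is a countable infinite subgroup of the circle. One chooses a null sequence `s` of nonzero
elements of `H` which tends to zero very fast and joins `τ` with the topology of uniform convergence on
`s`; this is a strictly finer locally quasi-convex topology with the same characters. The definitions
(`LocallyQuasiConvex`, `Compatible`, `PrecompactTop`, `Mackey`) and the proof are in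
`Pool.Agent.R821.NoMackey`.
-/

set_option autoImplicit false

namespace Pool.Agent.Results.MP_19adc1_gt.NoMetrizablePrecompactMackey

open Pool.Agent.R821

/-- **Negative answer to Q1.** (1) Every metrizable precompact locally quasi-convex group topology `τ`
on `ℤ` has a strictly finer locally quasi-convex Hausdorff group topology `σ` with the same continuous
characters. (2) There is no metrizable precompact Mackey group topology on `ℤ`. -/
theorem result :
    (∀ τ : TopologicalSpace ℤ, @IsTopologicalAddGroup ℤ τ _ →
      @TopologicalSpace.MetrizableSpace ℤ τ → PrecompactTop τ → LocallyQuasiConvex τ →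
      ∃ σ : TopologicalSpace ℤ, @IsTopologicalAddGroup ℤ σ _ ∧ @T2Space ℤ σ ∧
        LocallyQuasiConvex σ ∧ Compatible σ τ ∧ σ ≤ τ ∧ ¬ τ ≤ σ) ∧
    ¬ ∃ τ : TopologicalSpace ℤ, @IsTopologicalAddGroup ℤ τ _ ∧
      @TopologicalSpace.MetrizableSpace ℤ τ ∧ PrecompactTop τ ∧ Mackey τ := by
  refine ⟨fun τ hτ hmet hp hl => exists_finer τ hτ hmet hp hl, ?_⟩
  rintro ⟨τ, hτ, hmet, hp, hl, hM⟩
  obtain ⟨σ, hσ, hT2, hlσ, hc, -, hn⟩ := exists_finer τ hτ hmet hp hl
  exact hn (hM σ hσ hT2 hlσ hc)

end Pool.Agent.Results.MP_19adc1_gt.NoMetrizablePrecompactMackey
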